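import Pool.Agent.W787.PS.StmA

/-!
PS-W2W3: averages over moving discs.
-/

set_option autoImplicit false

open MeasureTheory Set Metric Filter Topology
open scoped ENNReal

noncomputable section

namespace Pool.Agent.W140.PS
open Pool.Agent.W787.PS

/-! ### affine change of variables -/

/-- the affine homeomorphism -/
def aff (a : ℂ) {r : ℝ} (hr : 0 < r) : ℂ ≃ₜ ℂ :=
  (Homeomorph.mulLeft₀ (r : ℂ) (by exact_mod_cast hr.ne')).trans (Homeomorph.addLeft a)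

theorem aff_apply (a : ℂ) {r : ℝ} (hr : 0 < r) (x : ℂ) : aff a hr x = a + (r : ℂ) * x := rfl

theorem map_aff (a : ℂ) {r : ℝ} (hr : 0 < r) :
    Measure.map (aff a hr) (volume : Measure ℂ) = ENNReal.ofReal ((r ^ 2)⁻¹) • volume := by
  have h1 : (aff a hr : ℂ → ℂ) = (fun x => a + x) ∘ (fun x : ℂ => r • x) := by
    funext x
    simp [aff_apply]
  rw [h1, ← Measure.map_map (measurable_const_add a) (measurable_const_smul r),
    Measure.map_addHaar_smul volume hr.ne', Measure.map_smul, Complex.finrank_real_complex,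
    map_add_left_eq_self, abs_of_pos (by positivity)]

theorem pre_ball (a : ℂ) {r : ℝ} (hr : 0 < r) : aff a hr ⁻¹' ball a r = ball 0 1 := by
  ext x
  simp only [mem_preimage, aff_apply, mem_ball, dist_eq_norm, add_sub_cancel_left, sub_zero,
    norm_mul, Complex.norm_real, Real.norm_of_nonneg hr.le]
  constructor
  · intro h
    by_contra h1
    push Not at h1
    nlinarith
  · intro h
    nlinarith

theorem avg_unit (f : ℂ → ℝ) (a : ℂ) {r : ℝ} (hr : 0 < r) :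
    avg f a r = Real.pi⁻¹ * ∫ x in ball (0 : ℂ) 1, f (a + (r : ℂ) * x) := by
  have h := (aff a hr).measurableEmbedding.setIntegral_map (μ := (volume : Measure ℂ)) f (ball a r)
  rw [map_aff, pre_ball, Measure.restrict_smul, integral_smul_measure,
    ENNReal.toReal_ofReal (by positivity), smul_eq_mul] at h
  unfold avg
  simp only [aff_apply] at h
  rw [← h, mul_inv]
  ring

theorem lin_unit (f : ℂ → ℝ≥0∞) (a : ℂ) {r : ℝ} (hr : 0 < r) :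
    ∫⁻ x in ball (0 : ℂ) 1, f (a + (r : ℂ) * x) =
      ENNReal.ofReal ((r ^ 2)⁻¹) * ∫⁻ y in ball a r, f y := by
  have h1 := (aff a hr).measurableEmbedding.restrict_map (volume : Measure ℂ) (ball a r)
  rw [map_aff, pre_ball, Measure.restrict_smul] at h1
  have h2 := (aff a hr).measurableEmbedding.lintegral_map
    (μ := (volume : Measure ℂ).restrict (ball 0 1)) f
  rw [← h1, lintegral_smul_measure] at h2
  simp only [aff_apply, smul_eq_mul] at h2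
  exact h2.symm

/-! ### Cauchy-Schwarz -/

theorem cs {α : Type} [MeasurableSpace α] (μ : Measure α) {f g : α → ℝ≥0∞} (hf : Measurable f)
    (hg : Measurable g) : ∫⁻ a, f a * g a ∂μ ≤
      (∫⁻ a, f a ^ 2 ∂μ) ^ (1 / 2 : ℝ) * (∫⁻ a, g a ^ 2 ∂μ) ^ (1 / 2 : ℝ) := by
  have h := ENNReal.lintegral_mul_le_Lp_mul_Lq μ Real.HolderConjugate.two_two hf.aemeasurable
    hg.aemeasurable
  simp only [ENNReal.rpow_two] at h
  exact h

/-! ### gradients -/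

theorem nsq_nonneg (w : ℂ → ℝ) (z : ℂ) : 0 ≤ nsq w z := by unfold nsq; positivity

theorem nsq_meas (w : ℂ → ℝ) : Measurable (nsq w) := by
  unfold nsq
  exact ((measurable_fderiv_apply_const ℝ w 1).pow_const 2).add
    ((measurable_fderiv_apply_const ℝ w Complex.I).pow_const 2)

theorem fderiv_le (w : ℂ → ℝ) (z u : ℂ) : |fderiv ℝ w z u| ≤ ‖u‖ * Real.sqrt (nsq w z) := by
  have h1 : u = u.re • (1 : ℂ) + u.im • Complex.I := by
    apply Complex.ext <;> simp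
  have h2 : fderiv ℝ w z u = u.re * fderiv ℝ w z 1 + u.im * fderiv ℝ w z Complex.I := by
    conv_lhs => rw [h1]
    rw [map_add, map_smul, map_smul]
    rfl
  rw [h2]
  apply abs_le_of_sq_le_sq _ (by positivity)
  rw [mul_pow, Real.sq_sqrt (nsq_nonneg w z), Complex.sq_norm, Complex.normSq_apply]
  unfold nsq
  nlinarith [sq_nonneg (u.re * fderiv ℝ w z Complex.I - u.im * fderiv ℝ w z 1)]

/-! ### the path lemma -/

section path
variable (w : ℂ → ℝ) (R : ℝ) (hw : ContDiffOn ℝ 1 w (ball 0 R)) (α₀ α₁ : ℂ) (β₀ β₁ v₀ v₁ : ℝ)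

/-- the moving point -/
def pt (α₀ α₁ : ℂ) (β₀ β₁ : ℝ) (v : ℝ) (x : ℂ) : ℂ :=
  (α₀ + (v : ℂ) * α₁) + ((β₀ + v * β₁ : ℝ) : ℂ) * x

theorem pt_cont : Continuous (fun p : ℝ × ℂ => pt α₀ α₁ β₀ β₁ p.1 p.2) := by
  unfold pt
  have : Continuous (fun p : ℝ × ℂ => ((β₀ + p.1 * β₁ : ℝ) : ℂ)) :=
    Complex.continuous_ofReal.comp (by fun_prop)
  have h2 : Continuous (fun p : ℝ × ℂ => ((p.1 : ℝ) : ℂ)) :=
    Complex.continuous_ofReal.comp (by fun_prop)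
  exact ((continuous_const.add (h2.mul continuous_const))).add (this.mul continuous_snd)

theorem pt_mem {v : ℝ} {x : ℂ} (hx : x ∈ ball (0 : ℂ) 1) (hβ : 0 < β₀ + v * β₁)
    (hR : ‖α₀ + (v : ℂ) * α₁‖ + (β₀ + v * β₁) < R) : pt α₀ α₁ β₀ β₁ v x ∈ ball (0 : ℂ) R := by
  rw [mem_ball_zero_iff] at hx ⊢
  unfold pt
  calc ‖(α₀ + (v : ℂ) * α₁) + ((β₀ + v * β₁ : ℝ) : ℂ) * x‖
      ≤ ‖α₀ + (v : ℂ) * α₁‖ + ‖((β₀ + v * β₁ : ℝ) : ℂ) * x‖ := norm_add_le _ _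
    _ = ‖α₀ + (v : ℂ) * α₁‖ + (β₀ + v * β₁) * ‖x‖ := by
        rw [norm_mul, Complex.norm_real, Real.norm_of_nonneg hβ.le]
    _ < R := by nlinarith

theorem pt_deriv (v : ℝ) (x : ℂ) :
    HasDerivAt (fun v : ℝ => pt α₀ α₁ β₀ β₁ v x) (α₁ + (β₁ : ℂ) * x) v := by
  have h1 : HasDerivAt (fun v : ℝ => (v : ℂ)) 1 v := by
    simpa using (hasDerivAt_id v).ofReal_comp
  have h2 : HasDerivAt (fun v : ℝ => (α₀ + (v : ℂ) * α₁) + (((β₀ : ℂ) + (v : ℂ) * (β₁ : ℂ))) * x)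
      ((1 * α₁) + (1 * (β₁ : ℂ)) * x) v :=
    ((h1.mul_const α₁).const_add α₀).add (((h1.mul_const (β₁ : ℂ)).const_add (β₀ : ℂ)).mul_const x)
  rw [one_mul, one_mul] at h2
  convert h2 using 1
  funext v
  unfold pt
  push_cast
  ring

include hw

theorem step_le {K : ℝ} (hK : ‖α₁‖ + |β₁| ≤ K) (h01 : v₀ ≤ v₁)
    (hβ : ∀ v ∈ Icc v₀ v₁, 0 < β₀ + v * β₁)
    (hR : ∀ v ∈ Icc v₀ v₁, ‖α₀ + (v : ℂ) * α₁‖ + (β₀ + v * β₁) < R) {x : ℂ}
    (hx : x ∈ ball (0 : ℂ) 1) :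
    ‖w (pt α₀ α₁ β₀ β₁ v₁ x) - w (pt α₀ α₁ β₀ β₁ v₀ x)‖ₑ ≤
      ∫⁻ v in Icc v₀ v₁, ENNReal.ofReal (K * Real.sqrt (nsq w (pt α₀ α₁ β₀ β₁ v x))) := by
  have hin : ∀ v ∈ Icc v₀ v₁, pt α₀ α₁ β₀ β₁ v x ∈ ball (0 : ℂ) R := fun v hv =>
    pt_mem R α₀ α₁ β₀ β₁ hx (hβ v hv) (hR v hv)
  have hd : ∀ v ∈ uIcc v₀ v₁, HasDerivAt (fun v => w (pt α₀ α₁ β₀ β₁ v x))
      (fderiv ℝ w (pt α₀ α₁ β₀ β₁ v x) (α₁ + (β₁ : ℂ) * x)) v := by
    intro v hv
    rw [uIcc_of_le h01] at hv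
    have h1 : HasFDerivAt w (fderiv ℝ w (pt α₀ α₁ β₀ β₁ v x)) (pt α₀ α₁ β₀ β₁ v x) :=
      ((hw.differentiableOn one_ne_zero).differentiableAt (isOpen_ball.mem_nhds (hin v hv))).hasFDerivAt
    exact h1.comp_hasDerivAt v (pt_deriv α₀ α₁ β₀ β₁ v x)
  have hc : ContinuousOn (fun v => fderiv ℝ w (pt α₀ α₁ β₀ β₁ v x) (α₁ + (β₁ : ℂ) * x))
      (uIcc v₀ v₁) := by
    rw [uIcc_of_le h01]
    have h1 : ContinuousOn (fderiv ℝ w) (ball 0 R) := hw.continuousOn_fderiv_of_isOpen isOpen_ball le_rfl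
    have h2 : Continuous (fun v : ℝ => pt α₀ α₁ β₀ β₁ v x) :=
      (pt_cont α₀ α₁ β₀ β₁).comp (continuous_id.prodMk continuous_const)
    exact (h1.comp h2.continuousOn (fun v hv => hin v hv)).clm_apply continuousOn_const
  have hft := intervalIntegral.integral_eq_sub_of_hasDerivAt hd hc.intervalIntegrable
  rw [← hft, intervalIntegral.integral_of_le h01]
  refine (enorm_integral_le_lintegral_enorm _).trans ?_
  refine (lintegral_mono_set Ioc_subset_Icc_self).trans ?_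
  apply lintegral_mono
  intro v
  show ‖(fderiv ℝ w (pt α₀ α₁ β₀ β₁ v x)) (α₁ + (β₁ : ℂ) * x)‖ₑ ≤
    ENNReal.ofReal (K * Real.sqrt (nsq w (pt α₀ α₁ β₀ β₁ v x)))
  rw [← ofReal_norm]
  apply ENNReal.ofReal_le_ofReal
  rw [Real.norm_eq_abs]
  refine (fderiv_le w _ _).trans ?_
  apply mul_le_mul_of_nonneg_right _ (Real.sqrt_nonneg _)
  rw [mem_ball_zero_iff] at hx
  calc ‖α₁ + (β₁ : ℂ) * x‖ ≤ ‖α₁‖ + ‖(β₁ : ℂ) * x‖ := norm_add_le _ _
    _ = ‖α₁‖ + |β₁| * ‖x‖ := by rw [norm_mul, Complex.norm_real, Real.norm_eq_abs]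
    _ ≤ ‖α₁‖ + |β₁| := by nlinarith [abs_nonneg β₁]
    _ ≤ K := hK

theorem unit_int {a : ℂ} {r : ℝ} (hr : 0 < r) (haR : ‖a‖ + r < R) :
    IntegrableOn (fun x => w (a + (r : ℂ) * x)) (ball (0 : ℂ) 1) := by
  have hsub : ∀ x ∈ closedBall (0 : ℂ) 1, a + (r : ℂ) * x ∈ ball (0 : ℂ) R := by
    intro x hx
    rw [mem_closedBall_zero_iff] at hx
    rw [mem_ball_zero_iff]
    calc ‖a + (r : ℂ) * x‖ ≤ ‖a‖ + ‖(r : ℂ) * x‖ := norm_add_le _ _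
      _ = ‖a‖ + r * ‖x‖ := by rw [norm_mul, Complex.norm_real, Real.norm_of_nonneg hr.le]
      _ < R := by nlinarith
  have hc : ContinuousOn (fun x => w (a + (r : ℂ) * x)) (closedBall (0 : ℂ) 1) :=
    hw.continuousOn.comp (by fun_prop) hsub
  exact (hc.integrableOn_compact (isCompact_closedBall 0 1)).mono_set ball_subset_closedBall

theorem path {K : ℝ} (hK : ‖α₁‖ + |β₁| ≤ K) (h01 : v₀ ≤ v₁)
    (hβ : ∀ v ∈ Icc v₀ v₁, 0 < β₀ + v * β₁)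
    (hR : ∀ v ∈ Icc v₀ v₁, ‖α₀ + (v : ℂ) * α₁‖ + (β₀ + v * β₁) < R) :
    ‖avg w (α₀ + (v₁ : ℂ) * α₁) (β₀ + v₁ * β₁) - avg w (α₀ + (v₀ : ℂ) * α₁) (β₀ + v₀ * β₁)‖ₑ ≤
      ENNReal.ofReal (K * (Real.sqrt Real.pi)⁻¹) * ∫⁻ v in Icc v₀ v₁,
        ENNReal.ofReal ((β₀ + v * β₁)⁻¹) *
          (∫⁻ y in ball (α₀ + (v : ℂ) * α₁) (β₀ + v * β₁), ENNReal.ofReal (nsq w y)) ^ (1 / 2 : ℝ) := by
  have hK0 : 0 ≤ K := le_trans (by positivity) hK
  have m0 : v₀ ∈ Icc v₀ v₁ := ⟨le_rfl, h01⟩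
  have m1 : v₁ ∈ Icc v₀ v₁ := ⟨h01, le_rfl⟩
  rw [avg_unit w _ (hβ v₁ m1), avg_unit w _ (hβ v₀ m0), ← mul_sub,
    ← integral_sub (unit_int w R hw (hβ v₁ m1) (hR v₁ m1)) (unit_int w R hw (hβ v₀ m0) (hR v₀ m0)),
    enorm_mul]
  have h1 : ‖∫ x in ball (0 : ℂ) 1, (w (α₀ + (v₁ : ℂ) * α₁ + ((β₀ + v₁ * β₁ : ℝ) : ℂ) * x) -
      w (α₀ + (v₀ : ℂ) * α₁ + ((β₀ + v₀ * β₁ : ℝ) : ℂ) * x))‖ₑ ≤
      ∫⁻ x in ball (0 : ℂ) 1, ∫⁻ v in Icc v₀ v₁,
        ENNReal.ofReal (K * Real.sqrt (nsq w (pt α₀ α₁ β₀ β₁ v x))) := by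
    refine (enorm_integral_le_lintegral_enorm _).trans ?_
    apply setLIntegral_mono' measurableSet_ball
    intro x hx
    exact step_le w R hw α₀ α₁ β₀ β₁ v₀ v₁ hK h01 hβ hR hx
  have hmeas : Measurable (fun p : ℂ × ℝ =>
      ENNReal.ofReal (K * Real.sqrt (nsq w (pt α₀ α₁ β₀ β₁ p.2 p.1)))) := by
    have hp : Measurable (fun p : ℂ × ℝ => pt α₀ α₁ β₀ β₁ p.2 p.1) :=
      ((pt_cont α₀ α₁ β₀ β₁).comp continuous_swap).measurable
    exact (((nsq_meas w).comp hp).sqrt.const_mul K).ennreal_ofReal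
  rw [lintegral_lintegral_swap hmeas.aemeasurable] at h1
  have h2 : ∫⁻ v in Icc v₀ v₁, ∫⁻ x in ball (0 : ℂ) 1,
      ENNReal.ofReal (K * Real.sqrt (nsq w (pt α₀ α₁ β₀ β₁ v x))) ≤
      ∫⁻ v in Icc v₀ v₁, ENNReal.ofReal (K * Real.sqrt Real.pi) * (ENNReal.ofReal ((β₀ + v * β₁)⁻¹) *
          (∫⁻ y in ball (α₀ + (v : ℂ) * α₁) (β₀ + v * β₁), ENNReal.ofReal (nsq w y)) ^ (1 / 2 : ℝ)) := by
    apply setLIntegral_mono' measurableSet_Icc
    intro v hv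
    have hb := hβ v hv
    have hp : Measurable (fun x : ℂ => pt α₀ α₁ β₀ β₁ v x) :=
      ((pt_cont α₀ α₁ β₀ β₁).comp (continuous_const.prodMk continuous_id)).measurable
    have hm : Measurable (fun x : ℂ => ENNReal.ofReal (Real.sqrt (nsq w (pt α₀ α₁ β₀ β₁ v x)))) :=
      ((nsq_meas w).comp hp).sqrt.ennreal_ofReal
    have e1 : ∫⁻ x in ball (0 : ℂ) 1, ENNReal.ofReal (K * Real.sqrt (nsq w (pt α₀ α₁ β₀ β₁ v x))) =
        ENNReal.ofReal K * ∫⁻ x in ball (0 : ℂ) 1,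
          1 * ENNReal.ofReal (Real.sqrt (nsq w (pt α₀ α₁ β₀ β₁ v x))) := by
      simp only [one_mul]
      rw [← lintegral_const_mul _ hm]
      simp only [ENNReal.ofReal_mul hK0]
    have e2 := cs (volume.restrict (ball (0 : ℂ) 1)) (f := fun _ => (1 : ℝ≥0∞)) measurable_const hm
    have e3 : ∫⁻ x in ball (0 : ℂ) 1, (ENNReal.ofReal (Real.sqrt (nsq w (pt α₀ α₁ β₀ β₁ v x)))) ^ 2 =
        ENNReal.ofReal (((β₀ + v * β₁) ^ 2)⁻¹) *
          ∫⁻ y in ball (α₀ + (v : ℂ) * α₁) (β₀ + v * β₁), ENNReal.ofReal (nsq w y) := by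
      rw [← lin_unit (fun y => ENNReal.ofReal (nsq w y)) _ hb]
      congr 1
      funext x
      rw [← ENNReal.ofReal_pow (Real.sqrt_nonneg _), Real.sq_sqrt (nsq_nonneg _ _)]
      rfl
    have e4 : (∫⁻ x in ball (0 : ℂ) 1, (1 : ℝ≥0∞) ^ 2) ^ (1 / 2 : ℝ) =
        ENNReal.ofReal (Real.sqrt Real.pi) := by
      rw [one_pow, lintegral_one, Measure.restrict_apply_univ, Complex.volume_ball,
        ENNReal.ofReal_one, one_pow, one_mul, Real.sqrt_eq_rpow,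
        ← ENNReal.ofReal_rpow_of_nonneg Real.pi_pos.le (by norm_num)]
      congr 1
      rw [ENNReal.ofReal, Real.toNNReal_of_nonneg Real.pi_pos.le]
      rfl
    rw [e1]
    calc ENNReal.ofReal K * ∫⁻ x in ball (0 : ℂ) 1,
          1 * ENNReal.ofReal (Real.sqrt (nsq w (pt α₀ α₁ β₀ β₁ v x)))
        ≤ ENNReal.ofReal K * (ENNReal.ofReal (Real.sqrt Real.pi) *
          (ENNReal.ofReal (((β₀ + v * β₁) ^ 2)⁻¹) *
          ∫⁻ y in ball (α₀ + (v : ℂ) * α₁) (β₀ + v * β₁), ENNReal.ofReal (nsq w y)) ^ (1 / 2 : ℝ)) := by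
          rw [← e3, ← e4]
          exact mul_le_mul_right e2 _
      _ = _ := by
          rw [ENNReal.mul_rpow_of_nonneg _ _ (by norm_num : (0:ℝ) ≤ 1 / 2),
            ENNReal.ofReal_rpow_of_nonneg (by positivity) (by norm_num), ← Real.sqrt_eq_rpow,
            Real.sqrt_inv, Real.sqrt_sq hb.le, ENNReal.ofReal_mul hK0, mul_assoc]
  have h3 := h1.trans h2
  rw [lintegral_const_mul'] at h3
  · have h4 : ‖(Real.pi⁻¹ : ℝ)‖ₑ = ENNReal.ofReal Real.pi⁻¹ := by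
      rw [← ofReal_norm, Real.norm_of_nonneg (by positivity)]
    rw [h4]
    refine (mul_le_mul_right h3 _).trans (le_of_eq ?_)
    rw [← mul_assoc, ← ENNReal.ofReal_mul (by positivity)]
    congr 2
    have hpi : Real.sqrt Real.pi * Real.sqrt Real.pi = Real.pi := Real.mul_self_sqrt Real.pi_pos.le
    have hs : Real.sqrt Real.pi ≠ 0 := (Real.sqrt_pos.2 Real.pi_pos).ne'
    have hp0 : Real.pi ≠ 0 := Real.pi_pos.ne'
    field_simp
    rw [sq, hpi]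
    ring
  · exact ENNReal.ofReal_ne_top

end path

end Pool.Agent.W140.PS
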