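import Pool.Agent.W140.PS.Path

/-!
PS-W2W3: comparison of disc averages of a function with small energy.
-/

set_option autoImplicit false

open MeasureTheory Set Metric Filter Topology
open scoped ENNReal

noncomputable section

namespace Pool.Agent.W140.PS
open Pool.Agent.W787.PS

theorem energy_eq (w : ℂ → ℝ) (R : ℝ) (hi : IntegrableOn (nsq w) (ball 0 R)) :
    ∫⁻ y in ball (0 : ℂ) R, ENNReal.ofReal (nsq w y) =
      ENNReal.ofReal (∫ x in ball (0 : ℂ) R, nsq w x) :=
  (ofReal_integral_eq_lintegral_ofReal hi (ae_of_all _ fun x => nsq_nonneg w x)).symm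

theorem to_real {x y : ℝ} (hy : 0 ≤ y) (h : ‖x‖ₑ ≤ ENNReal.ofReal y) : |x| ≤ y := by
  rw [← ofReal_norm, Real.norm_eq_abs] at h
  exact (ENNReal.ofReal_le_ofReal_iff hy).1 h

theorem w2 : S_W2 := by
  intro a b r s R hr hs haR hbR
  set m : ℝ := min r s with hm
  have hm0 : 0 < m := lt_min hr hs
  set K : ℝ := ‖b - a‖ + |s - r| with hK
  have hK0 : 0 ≤ K := by positivity
  refine ⟨K * (Real.sqrt Real.pi)⁻¹ * m⁻¹ + 1, by positivity, fun w hw hi => ?_⟩
  set I : ℝ := ∫ x in ball (0 : ℂ) R, nsq w x with hI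
  have hI0 : 0 ≤ I := integral_nonneg fun x => nsq_nonneg w x
  have hβ : ∀ v ∈ Icc (0 : ℝ) 1, m ≤ r + v * (s - r) := by
    intro v hv
    have h1 : m ≤ r := min_le_left _ _
    have h2 : m ≤ s := min_le_right _ _
    nlinarith [hv.1, hv.2]
  have hR : ∀ v ∈ Icc (0 : ℝ) 1, ‖a + (v : ℂ) * (b - a)‖ + (r + v * (s - r)) < R := by
    intro v hv
    have e1 : a + (v : ℂ) * (b - a) = ((1 - v : ℝ) : ℂ) * a + (v : ℂ) * b := by
      push_cast; ring
    have h1 : ‖a + (v : ℂ) * (b - a)‖ ≤ (1 - v) * ‖a‖ + v * ‖b‖ := by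
      rw [e1]
      refine (norm_add_le _ _).trans ?_
      rw [norm_mul, norm_mul, Complex.norm_real, Complex.norm_real,
        Real.norm_of_nonneg (by linarith [hv.2]), Real.norm_of_nonneg hv.1]
    have h2 : (1 - v) * (‖a‖ + r) + v * (‖b‖ + s) < R := by
      rcases eq_or_lt_of_le hv.1 with h0 | h0
      · rw [← h0]; linarith
      · have h3 : (1 - v) * (‖a‖ + r) ≤ (1 - v) * R :=
          mul_le_mul_of_nonneg_left haR.le (by linarith [hv.2])
        have h4 : v * (‖b‖ + s) < v * R := mul_lt_mul_of_pos_left hbR h0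
        linarith
    linarith
  have h := path w R hw a (b - a) r (s - r) 0 1 (K := K) le_rfl zero_le_one
    (fun v hv => hm0.trans_le (hβ v hv)) hR
  have hE : ∫⁻ v in Icc (0 : ℝ) 1, ENNReal.ofReal ((r + v * (s - r))⁻¹) *
      (∫⁻ y in ball (a + (v : ℂ) * (b - a)) (r + v * (s - r)),
        ENNReal.ofReal (nsq w y)) ^ (1 / 2 : ℝ) ≤
      ∫⁻ v in Icc (0 : ℝ) 1, ENNReal.ofReal m⁻¹ * (ENNReal.ofReal I) ^ (1 / 2 : ℝ) := by
    apply setLIntegral_mono' measurableSet_Icc
    intro v hv
    refine mul_le_mul' ?_ ?_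
    · apply ENNReal.ofReal_le_ofReal
      exact inv_anti₀ hm0 (hβ v hv)
    · apply ENNReal.rpow_le_rpow _ (by norm_num)
      rw [hI, ← energy_eq w R hi]
      apply lintegral_mono_set
      apply ball_subset_ball'
      rw [dist_zero_right]
      linarith [hR v hv]
  rw [setLIntegral_const, Real.volume_Icc, sub_zero, ENNReal.ofReal_one, mul_one,
    ENNReal.ofReal_rpow_of_nonneg hI0 (by norm_num), ← Real.sqrt_eq_rpow,
    ← ENNReal.ofReal_mul (by positivity)] at hE
  have h2 := h.trans (mul_le_mul_right hE _)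
  rw [← ENNReal.ofReal_mul (by positivity)] at h2
  have h3 := to_real (by positivity) h2
  have e1 : a + ((1 : ℝ) : ℂ) * (b - a) = b := by push_cast; ring
  have e2 : r + 1 * (s - r) = s := by ring
  have e3 : a + ((0 : ℝ) : ℂ) * (b - a) = a := by push_cast; ring
  have e4 : r + 0 * (s - r) = r := by ring
  rw [e1, e2, e3, e4, abs_sub_comm] at h3
  refine h3.trans ?_
  have : 0 ≤ Real.sqrt I := Real.sqrt_nonneg _
  nlinarith

/-! ### radial comparison -/

theorem ring_bound (w : ℂ → ℝ) (R : ℝ) {a : ℂ} {t : ℝ} (ha1 : 1 ≤ ‖a‖) (ha2 : ‖a‖ ≤ 2)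
    (htR : 3 * t ≤ R) :
    ∫⁻ v in Icc (1 : ℝ) t, ENNReal.ofReal v⁻¹ *
      ∫⁻ y in ball (0 + (v : ℂ) * a) (0 + v * (1 / 16)), ENNReal.ofReal (nsq w y) ≤
      ENNReal.ofReal (6 / 5) * ∫⁻ y in ball (0 : ℂ) R, ENNReal.ofReal (nsq w y) := by
  set T : Set (ℝ × ℂ) := {p | dist p.2 (0 + (p.1 : ℂ) * a) < 0 + p.1 * (1 / 16)} with hT
  have hTo : MeasurableSet T := by
    apply (isOpen_lt _ _).measurableSet
    · have : Continuous (fun p : ℝ × ℂ => ((p.1 : ℝ) : ℂ)) :=
        Complex.continuous_ofReal.comp continuous_fst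
      exact continuous_snd.dist (continuous_const.add (this.mul continuous_const))
    · fun_prop
  set F : ℝ × ℂ → ℝ≥0∞ := T.indicator (fun p => ENNReal.ofReal p.1⁻¹ * ENNReal.ofReal (nsq w p.2))
    with hF
  have hFm : Measurable F := by
    apply Measurable.indicator _ hTo
    exact (measurable_fst.inv.ennreal_ofReal).mul (((nsq_meas w).comp measurable_snd).ennreal_ofReal)
  have e1 : ∀ v : ℝ, ENNReal.ofReal v⁻¹ *
      ∫⁻ y in ball (0 + (v : ℂ) * a) (0 + v * (1 / 16)), ENNReal.ofReal (nsq w y) =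
      ∫⁻ y, F (v, y) := by
    intro v
    rw [← lintegral_const_mul _ (nsq_meas w).ennreal_ofReal, ← lintegral_indicator measurableSet_ball]
    congr 1
  simp_rw [e1]
  rw [lintegral_lintegral_swap (f := fun v y => F (v, y)) hFm.aemeasurable]
  have e2 : ∀ y : ℂ, ∫⁻ v in Icc (1 : ℝ) t, F (v, y) ≤
      (ball (0 : ℂ) R).indicator (fun y => ENNReal.ofReal (6 / 5) * ENNReal.ofReal (nsq w y)) y := by
    intro y
    have key : ∀ v ∈ Icc (1 : ℝ) t, (v, y) ∈ T → 15 / 16 * v < ‖y‖ ∧ ‖y‖ < 33 / 16 * v := by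
      intro v hv hy
      have hv0 : 0 < v := by linarith [hv.1]
      simp only [hT, mem_setOf_eq, dist_eq_norm, zero_add] at hy
      have hva : ‖(v : ℂ) * a‖ = v * ‖a‖ := by
        rw [norm_mul, Complex.norm_real, Real.norm_of_nonneg hv0.le]
      have h1 := norm_sub_norm_le ((v : ℂ) * a) y
      have h2 := norm_sub_norm_le y ((v : ℂ) * a)
      rw [norm_sub_rev] at h1
      rw [hva] at h1 h2
      constructor <;> nlinarith
    by_cases hyR : y ∈ ball (0 : ℂ) R
    · rw [indicator_of_mem hyR]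
      by_cases hy0 : ‖y‖ = 0
      · have : ∫⁻ v in Icc (1 : ℝ) t, F (v, y) = 0 := by
          rw [← lintegral_zero (μ := volume.restrict (Icc (1 : ℝ) t))]
          apply setLIntegral_congr_fun measurableSet_Icc
          intro v hv
          apply indicator_of_notMem
          intro h
          have := (key v hv h).1
          rw [hy0] at this
          linarith [hv.1]
        rw [this]
        exact bot_le
      · have hy1 : 0 < ‖y‖ := lt_of_le_of_ne (norm_nonneg _) (Ne.symm hy0)
        have h1 : ∫⁻ v in Icc (1 : ℝ) t, F (v, y) ≤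
            ∫⁻ v in Icc (1 : ℝ) t, (Icc (16 / 33 * ‖y‖) (16 / 15 * ‖y‖)).indicator
              (fun _ => ENNReal.ofReal (33 / 16 * ‖y‖⁻¹) * ENNReal.ofReal (nsq w y)) v := by
          apply setLIntegral_mono' measurableSet_Icc
          intro v hv
          by_cases hvT : (v, y) ∈ T
          · obtain ⟨k1, k2⟩ := key v hv hvT
            have hvI : v ∈ Icc (16 / 33 * ‖y‖) (16 / 15 * ‖y‖) := by
              constructor <;> linarith
            rw [hF, indicator_of_mem hvT, indicator_of_mem hvI]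
            refine mul_le_mul' ?_ le_rfl
            apply ENNReal.ofReal_le_ofReal
            have hv0 : 0 < v := by linarith [hv.1]
            have h3 : 33 / 16 * ‖y‖⁻¹ = (16 / 33 * ‖y‖)⁻¹ := by
              rw [mul_inv]; norm_num
            show v⁻¹ ≤ _
            rw [h3]
            exact inv_anti₀ (by positivity) hvI.1
          · rw [hF, indicator_of_notMem hvT]
            exact bot_le
        refine h1.trans ?_
        refine (setLIntegral_le_lintegral _ _).trans ?_
        rw [lintegral_indicator measurableSet_Icc, setLIntegral_const, Real.volume_Icc]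
        apply le_of_eq
        rw [mul_comm (ENNReal.ofReal (33 / 16 * ‖y‖⁻¹)), mul_assoc, ← ENNReal.ofReal_mul (by positivity),
          mul_comm]
        congr 2
        field_simp
        norm_num
    · rw [indicator_of_notMem hyR]
      apply le_of_eq
      rw [← lintegral_zero (μ := volume.restrict (Icc (1 : ℝ) t))]
      apply setLIntegral_congr_fun measurableSet_Icc
      intro v hv
      apply indicator_of_notMem
      intro h
      have := (key v hv h).2
      rw [mem_ball_zero_iff] at hyR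
      apply hyR
      linarith [hv.1, hv.2]
  refine (lintegral_mono e2).trans ?_
  rw [lintegral_indicator measurableSet_ball, lintegral_const_mul _ (nsq_meas w).ennreal_ofReal]

theorem w3 : S_W3 := by
  refine ⟨33 / 16 * (Real.sqrt Real.pi)⁻¹ * (16 * Real.sqrt (6 / 5)), by
    have := Real.sqrt_pos.2 Real.pi_pos
    positivity, ?_⟩
  intro w R hw hi a t ha1 ha2 ht1 htR
  set I : ℝ := ∫ x in ball (0 : ℂ) R, nsq w x with hI
  have hI0 : 0 ≤ I := integral_nonneg fun x => nsq_nonneg w x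
  have hβ : ∀ v ∈ Icc (1 : ℝ) t, 0 < 0 + v * (1 / 16) := by
    intro v hv
    linarith [hv.1]
  have hR : ∀ v ∈ Icc (1 : ℝ) t, ‖(0 : ℂ) + (v : ℂ) * a‖ + (0 + v * (1 / 16)) < R := by
    intro v hv
    have hv0 : 0 < v := by linarith [hv.1]
    rw [zero_add, norm_mul, Complex.norm_real, Real.norm_of_nonneg hv0.le]
    nlinarith [hv.2]
  have hK : ‖a‖ + |(1 / 16 : ℝ)| ≤ 33 / 16 := by
    rw [abs_of_pos (by norm_num)]
    linarith
  have h := path w R hw 0 a 0 (1 / 16) 1 t hK ht1 hβ hR
  -- the integral on the right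
  set E : ℝ → ℝ≥0∞ := fun v =>
    ∫⁻ y in ball (0 + (v : ℂ) * a) (0 + v * (1 / 16)), ENNReal.ofReal (nsq w y) with hE
  have hEm : Measurable E := by
    have hTo : MeasurableSet {p : ℝ × ℂ | dist p.2 (0 + (p.1 : ℂ) * a) < 0 + p.1 * (1 / 16)} := by
      apply (isOpen_lt _ _).measurableSet
      · have : Continuous (fun p : ℝ × ℂ => ((p.1 : ℝ) : ℂ)) :=
          Complex.continuous_ofReal.comp continuous_fst
        exact continuous_snd.dist (continuous_const.add (this.mul continuous_const))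
      · fun_prop
    have hm : Measurable ({p : ℝ × ℂ | dist p.2 (0 + (p.1 : ℂ) * a) < 0 + p.1 * (1 / 16)}.indicator
        (fun p => ENNReal.ofReal (nsq w p.2))) :=
      (((nsq_meas w).comp measurable_snd).ennreal_ofReal).indicator hTo
    have h1 := hm.lintegral_prod_right' (ν := (volume : Measure ℂ))
    convert h1 using 1
    funext v
    rw [hE]
    simp only
    rw [← lintegral_indicator measurableSet_ball]
    congr 1
  have hc1 : ∫⁻ v in Icc (1 : ℝ) t, ENNReal.ofReal ((0 + v * (1 / 16))⁻¹) * E v ^ (1 / 2 : ℝ) =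
      ENNReal.ofReal 16 * ∫⁻ v in Icc (1 : ℝ) t, ENNReal.ofReal (Real.sqrt v⁻¹) *
        (ENNReal.ofReal (Real.sqrt v⁻¹) * E v ^ (1 / 2 : ℝ)) := by
    rw [← lintegral_const_mul' _ _ ENNReal.ofReal_ne_top]
    apply setLIntegral_congr_fun measurableSet_Icc
    intro v hv
    have hv0 : 0 < v := by linarith [hv.1]
    simp only
    rw [← mul_assoc, ← mul_assoc, mul_assoc (ENNReal.ofReal 16),
      ← ENNReal.ofReal_mul (Real.sqrt_nonneg _), Real.mul_self_sqrt (by positivity),
      ← ENNReal.ofReal_mul (by norm_num)]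
    congr 2
    rw [zero_add, mul_inv]
    norm_num
    ring
  have hf : Measurable (fun v : ℝ => ENNReal.ofReal (Real.sqrt v⁻¹)) :=
    (measurable_id.inv.sqrt).ennreal_ofReal
  have hg : Measurable (fun v : ℝ => ENNReal.ofReal (Real.sqrt v⁻¹) * E v ^ (1 / 2 : ℝ)) :=
    hf.mul (hEm.pow_const _)
  have hcs := cs (volume.restrict (Icc (1 : ℝ) t)) hf hg
  have hl : ∫⁻ v in Icc (1 : ℝ) t, ENNReal.ofReal (Real.sqrt v⁻¹) ^ 2 = ENNReal.ofReal (Real.log t) := by
    have e1 : ∫⁻ v in Icc (1 : ℝ) t, ENNReal.ofReal (Real.sqrt v⁻¹) ^ 2 =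
        ∫⁻ v in Icc (1 : ℝ) t, ENNReal.ofReal v⁻¹ := by
      apply setLIntegral_congr_fun measurableSet_Icc
      intro v hv
      have hv0 : 0 < v := by linarith [hv.1]
      simp only
      rw [← ENNReal.ofReal_pow (Real.sqrt_nonneg _), Real.sq_sqrt (by positivity)]
    rw [e1]
    have hcont : ContinuousOn (fun v : ℝ => v⁻¹) (Icc 1 t) :=
      continuousOn_inv₀.mono (fun v hv => by
        simp only [mem_compl_iff, mem_singleton_iff]
        have := hv.1
        intro h0
        linarith)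
    rw [← ofReal_integral_eq_lintegral_ofReal (hcont.integrableOn_compact isCompact_Icc)]
    · congr 1
      rw [integral_Icc_eq_integral_Ioc, ← intervalIntegral.integral_of_le ht1,
        integral_inv_of_pos zero_lt_one (by linarith), div_one]
    · rw [Filter.EventuallyLE, ae_restrict_iff' measurableSet_Icc]
      apply ae_of_all
      intro v hv
      have hv0 : 0 < v := by linarith [hv.1]
      show (0 : ℝ) ≤ v⁻¹
      positivity
  have hr : ∫⁻ v in Icc (1 : ℝ) t, (ENNReal.ofReal (Real.sqrt v⁻¹) * E v ^ (1 / 2 : ℝ)) ^ 2 ≤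
      ENNReal.ofReal (6 / 5 * I) := by
    have e1 : ∫⁻ v in Icc (1 : ℝ) t, (ENNReal.ofReal (Real.sqrt v⁻¹) * E v ^ (1 / 2 : ℝ)) ^ 2 =
        ∫⁻ v in Icc (1 : ℝ) t, ENNReal.ofReal v⁻¹ * E v := by
      apply setLIntegral_congr_fun measurableSet_Icc
      intro v hv
      have hv0 : 0 < v := by linarith [hv.1]
      simp only
      rw [mul_pow, ← ENNReal.ofReal_pow (Real.sqrt_nonneg _), Real.sq_sqrt (by positivity)]
      congr 1
      rw [← ENNReal.rpow_natCast, ← ENNReal.rpow_mul]
      norm_num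
    rw [e1, ENNReal.ofReal_mul (by norm_num), hI, ← energy_eq w R hi]
    exact ring_bound w R ha1 ha2 htR
  rw [hl] at hcs
  have h2 : ∫⁻ v in Icc (1 : ℝ) t, ENNReal.ofReal ((0 + v * (1 / 16))⁻¹) * E v ^ (1 / 2 : ℝ) ≤
      ENNReal.ofReal (16 * (Real.sqrt (Real.log t) * Real.sqrt (6 / 5 * I))) := by
    rw [hc1, ENNReal.ofReal_mul (by norm_num : (0:ℝ) ≤ 16)]
    apply mul_le_mul_right
    refine hcs.trans ?_
    rw [ENNReal.ofReal_mul (Real.sqrt_nonneg _),
      ENNReal.ofReal_rpow_of_nonneg (Real.log_nonneg ht1) (by norm_num), ← Real.sqrt_eq_rpow]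
    apply mul_le_mul_right
    rw [Real.sqrt_eq_rpow (6 / 5 * I), ← ENNReal.ofReal_rpow_of_nonneg (by positivity) (by norm_num)]
    exact ENNReal.rpow_le_rpow hr (by norm_num)
  have h3 := h.trans (mul_le_mul_right h2 _)
  rw [← ENNReal.ofReal_mul (by positivity)] at h3
  have h4 := to_real (by positivity) h3
  have e1 : avg w (0 + (t : ℂ) * a) (0 + t * (1 / 16)) = avg (fun x => w ((t : ℂ) * x)) a (1 / 16) := by
    rw [avg_unit w _ (hβ t ⟨ht1, le_rfl⟩), avg_unit _ _ (by norm_num : (0 : ℝ) < 1 / 16)]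
    congr 2
    funext x
    congr 1
    push_cast
    ring
  have e2 : avg w (0 + ((1 : ℝ) : ℂ) * a) (0 + 1 * (1 / 16)) = avg w a (1 / 16) := by
    congr 1
    · push_cast; ring
    · norm_num
  rw [e1, e2] at h4
  refine h4.trans (le_of_eq ?_)
  rw [Real.sqrt_mul (by norm_num)]
  ring

end Pool.Agent.W140.PS
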